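import Pool.Agent.Helper12_UNF.Stmts

/-!
The parabolic projection (module PRJ).
-/

set_option autoImplicit false

namespace Unf.H7

open Art Pool.Agent.Helper38_Coxeter

variable {S : Type}

lemma alt_succ' {G : Type} [Monoid G] (m : ℕ) (a b : G) :
    alt (m + 1) a b = alt m a b * (if Even m then a else b) := by
  unfold alt
  rw [List.range_succ, List.map_append, List.prod_append]
  simp

lemma sr_inj {s t : S} (h : (sr s : S →₀ ℝ) = sr t) : s = t :=
  Finsupp.single_left_injective one_ne_zero h

lemma prod_one {G : Type} [Monoid G] (F : ℕ → G) (m : ℕ) (h : ∀ k, k < m → F k = 1) :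
    ((List.range m).map F).prod = 1 := by
  induction m with
  | zero => simp
  | succ m ih =>
    rw [List.range_succ, List.map_append, List.prod_append, ih (fun k hk => h k (by omega))]
    simp [h m (by omega)]

lemma prod_single {G : Type} [Monoid G] (F : ℕ → G) (k0 m : ℕ) (hk : k0 < m)
    (h : ∀ k, k < m → k ≠ k0 → F k = 1) : ((List.range m).map F).prod = F k0 := by
  induction m with
  | zero => omega
  | succ m ih =>
    rw [List.range_succ, List.map_append, List.prod_append]
    by_cases hkm : k0 = m
    · subst hkm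
      rw [prod_one F k0 (fun k hk => h k (by omega) (by omega))]
      simp
    · rw [ih (by omega) (fun k hk hk' => h k (by omega) hk')]
      simp [h m (by omega) (fun e => hkm e.symm)]

section lin

variable {M : CoxeterMatrix S} {D : Set S}

lemma rho_mul (g h : M.Group) (v : S →₀ ℝ) : rho M.toCoxeterSystem (g * h) v =
    rho M.toCoxeterSystem g (rho M.toCoxeterSystem h v) := by
  rw [map_mul, LinearEquiv.mul_apply]

lemma rho_one (v : S →₀ ℝ) : rho M.toCoxeterSystem 1 v = v := by
  rw [map_one, LinearEquiv.coe_one, id_eq]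

lemma rho_s (s : S) (v : S →₀ ℝ) : rho M.toCoxeterSystem (M.simple s) v = sig M s v := by
  have := rho_simple M.toCoxeterSystem s
  rw [CoxeterMatrix.toCoxeterSystem_simple] at this
  rw [this]

lemma ss (s : S) : M.simple s * M.simple s = 1 := by
  have := M.toCoxeterSystem.simple_mul_simple_self s
  rwa [CoxeterMatrix.toCoxeterSystem_simple] at this

lemma supp_lin {u v : S →₀ ℝ} (hu : SuppIn D u) (hv : SuppIn D v) (a b : ℝ) :
    SuppIn D (a • u + b • v) := by
  intro s hs
  rw [Finsupp.add_apply, Finsupp.smul_apply, Finsupp.smul_apply, hu s hs, hv s hs]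
  simp

lemma supp_rho (hC : ChrStmt) {w : M.Group} (hw : w ∈ WP M D) {v : S →₀ ℝ} (hv : SuppIn D v) :
    SuppIn D (rho M.toCoxeterSystem w v) := by
  intro s hs
  have h1 := (hC M D w).1 hw v s hs
  rw [Finsupp.sub_apply, hv s hs, sub_zero] at h1
  exact h1

lemma supp_rho_iff (hC : ChrStmt) {w : M.Group} (hw : w ∈ WP M D) {v : S →₀ ℝ} :
    SuppIn D (rho M.toCoxeterSystem w v) ↔ SuppIn D v := by
  refine ⟨fun h => ?_, supp_rho hC hw⟩
  have := supp_rho hC (Subgroup.inv_mem _ hw) h
  rwa [← rho_mul, inv_mul_cancel, rho_one] at this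

lemma supp_sr {t : S} (ht : t ∈ D) : SuppIn D (sr t) := by
  intro s hs
  classical
  have hne : t ≠ s := fun e => hs (e ▸ ht)
  rw [sr, Finsupp.single_apply, if_neg hne]

/-- The roots of a residue. -/
lemma root_eq (k : ℕ) (s t : S) :
    Real.sin (Real.pi / M.M s t) • rho M.toCoxeterSystem (alt k (M.simple s) (M.simple t))
      (sr (if Even k then s else t)) =
    Real.sin ((k + 1) * (Real.pi / M.M s t)) • sr s + Real.sin (k * (Real.pi / M.M s t)) • sr t := by
  induction k generalizing s t with
  | zero => simp [alt_zero]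
  | succ k ih =>
    have h1 := ih t s
    have hm : M.M t s = M.M s t := M.symmetric t s
    rw [hm] at h1
    have e : (if Even (k + 1) then s else t) = (if Even k then t else s) := by
      by_cases hk : Even k <;> simp [hk, Nat.even_add_one]
    rw [e, alt_succ, rho_mul, ← map_smul, h1, rho_s]
    have g : gram M s t = - Real.cos (Real.pi / M.M s t) := rfl
    simp only [sig_apply, map_add, map_smul, bil_sr_sr, gram_self, g]
    have h2 : Real.sin ((((k + 1 : ℕ) : ℝ) + 1) * (Real.pi / M.M s t)) =
        2 * Real.cos (Real.pi / M.M s t) * Real.sin ((k + 1) * (Real.pi / M.M s t)) -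
          Real.sin (k * (Real.pi / M.M s t)) := by
      have e1 : (((k + 1 : ℕ) : ℝ) + 1) * (Real.pi / M.M s t) =
          (k + 1) * (Real.pi / M.M s t) + Real.pi / M.M s t := by push_cast; ring
      have e2 : (k : ℝ) * (Real.pi / M.M s t) =
          (k + 1) * (Real.pi / M.M s t) - Real.pi / M.M s t := by ring
      rw [e1, e2, Real.sin_add, Real.sin_sub]
      ring
    rw [h2]
    push_cast
    module

lemma sin_ne {s t : S} (hst : s ≠ t) (hm : M.M s t ≠ 0) : Real.sin (Real.pi / M.M s t) ≠ 0 := by
  have h1 : M.M s t ≠ 1 := M.off_diagonal s t hst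
  exact (sin_pi_div_pos (by omega)).ne'

/-- The same root from the other side. -/
lemma root_swap {s t : S} (hst : s ≠ t) (hm : M.M s t ≠ 0) {k j : ℕ} (hkj : k + j + 1 = M.M s t) :
    rho M.toCoxeterSystem (alt k (M.simple s) (M.simple t)) (sr (if Even k then s else t)) =
    rho M.toCoxeterSystem (alt j (M.simple t) (M.simple s)) (sr (if Even j then t else s)) := by
  have h0 := sin_ne hst hm
  apply smul_right_injective _ h0
  show Real.sin (Real.pi / M.M s t) • _ = Real.sin (Real.pi / M.M s t) • _
  rw [root_eq]
  have h1 := root_eq (M := M) j t s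
  have hm' : M.M t s = M.M s t := M.symmetric t s
  rw [hm'] at h1
  rw [h1]
  have hpos : (0 : ℝ) < M.M s t := by
    have : 0 < M.M s t := Nat.pos_of_ne_zero hm
    exact_mod_cast this
  have hc : ((k : ℝ) + j + 1) = M.M s t := by exact_mod_cast hkj
  have e1 : Real.sin (((j : ℝ) + 1) * (Real.pi / M.M s t)) =
      Real.sin (k * (Real.pi / M.M s t)) := by
    have : ((j : ℝ) + 1) * (Real.pi / M.M s t) = Real.pi - k * (Real.pi / M.M s t) := by
      rw [show (j : ℝ) + 1 = M.M s t - k by linarith]
      field_simp
    rw [this, Real.sin_pi_sub]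
  have e2 : Real.sin ((j : ℝ) * (Real.pi / M.M s t)) =
      Real.sin (((k : ℝ) + 1) * (Real.pi / M.M s t)) := by
    have : (j : ℝ) * (Real.pi / M.M s t) = Real.pi - (k + 1) * (Real.pi / M.M s t) := by
      rw [show (j : ℝ) = M.M s t - (k + 1) by linarith]
      field_simp
    rw [this, Real.sin_pi_sub]
  rw [e1, e2, add_comm]

lemma two_aux {s t : S} (hst : s ≠ t) (hm : M.M s t ≠ 0) {k l : ℕ} (hkl : k < l)
    (hl : l < M.M s t) (w : M.Group)
    (h1 : SuppIn D (rho M.toCoxeterSystem (w * alt k (M.simple s) (M.simple t))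
      (sr (if Even k then s else t))))
    (h2 : SuppIn D (rho M.toCoxeterSystem (w * alt l (M.simple s) (M.simple t))
      (sr (if Even l then s else t)))) :
    SuppIn D (rho M.toCoxeterSystem w (sr s)) ∧ SuppIn D (rho M.toCoxeterSystem w (sr t)) := by
  have hsin := sin_ne hst hm
  set θ := Real.pi / M.M s t with hθ
  have hpos : (0 : ℝ) < M.M s t := by
    have : 0 < M.M s t := Nat.pos_of_ne_zero hm
    exact_mod_cast this
  have hdiff : Real.sin (((l : ℝ) - k) * θ) ≠ 0 := by
    apply ne_of_gt
    apply Real.sin_pos_of_pos_of_lt_pi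
    · have : (0 : ℝ) < l - k := by
        have : (k : ℝ) < l := by exact_mod_cast hkl
        linarith
      have := Real.pi_pos
      positivity
    · have h3 : (l : ℝ) - k < M.M s t := by
        have h4 : (l : ℝ) < M.M s t := by exact_mod_cast hl
        have h5 : (0 : ℝ) ≤ k := Nat.cast_nonneg k
        linarith
      rw [hθ, mul_div_assoc', div_lt_iff₀ hpos]
      have := Real.pi_pos
      nlinarith
  have key : ∀ n : ℕ, ∀ i, i ∉ D →
      SuppIn D (rho M.toCoxeterSystem (w * alt n (M.simple s) (M.simple t))
        (sr (if Even n then s else t))) →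
      Real.sin ((n + 1) * θ) * rho M.toCoxeterSystem w (sr s) i +
        Real.sin (n * θ) * rho M.toCoxeterSystem w (sr t) i = 0 := by
    intro n i hi hn
    have h3 := congrArg (fun v => rho M.toCoxeterSystem w v i) (root_eq (M := M) n s t)
    simp only [map_smul, map_add, Finsupp.smul_apply, Finsupp.add_apply, smul_eq_mul] at h3
    rw [← rho_mul, hn i hi, mul_zero] at h3
    exact h3.symm
  have det : Real.sin ((k + 1) * θ) * Real.sin (l * θ) - Real.sin (k * θ) * Real.sin ((l + 1) * θ) =
      Real.sin θ * Real.sin (((l : ℝ) - k) * θ) := by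
    have e1 : ((k : ℝ) + 1) * θ = k * θ + θ := by ring
    have e2 : ((l : ℝ) + 1) * θ = l * θ + θ := by ring
    have e3 : ((l : ℝ) - k) * θ = l * θ - k * θ := by ring
    rw [e1, e2, e3, Real.sin_add, Real.sin_add, Real.sin_sub]
    ring
  have hdet : Real.sin ((k + 1) * θ) * Real.sin (l * θ) - Real.sin (k * θ) * Real.sin ((l + 1) * θ)
      ≠ 0 := by
    rw [det]; exact mul_ne_zero hsin hdiff
  constructor
  · intro i hi
    have a1 := key k i hi h1
    have a2 := key l i hi h2
    have : (Real.sin ((k + 1) * θ) * Real.sin (l * θ) - Real.sin (k * θ) * Real.sin ((l + 1) * θ)) *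
        rho M.toCoxeterSystem w (sr s) i = 0 := by
      linear_combination Real.sin (l * θ) * a1 - Real.sin (k * θ) * a2
    exact (mul_eq_zero.1 this).resolve_left hdet
  · intro i hi
    have a1 := key k i hi h1
    have a2 := key l i hi h2
    have : (Real.sin ((k + 1) * θ) * Real.sin (l * θ) - Real.sin (k * θ) * Real.sin ((l + 1) * θ)) *
        rho M.toCoxeterSystem w (sr t) i = 0 := by
      linear_combination Real.sin ((k + 1) * θ) * a2 - Real.sin ((l + 1) * θ) * a1
    exact (mul_eq_zero.1 this).resolve_left hdet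

end lin

section proj

variable {M : CoxeterMatrix S} {D : Set S}

/-- The properties of the coset decomposition. -/
structure Dec (M : CoxeterMatrix S) (D : Set S) (p : M.Group → M.Group) : Prop where
  mem : ∀ w, p w ∈ WP M D
  min : ∀ w, Min M D ((p w)⁻¹ * w)
  uniq : ∀ a ∈ WP M D, ∀ d, Min M D d → p (a * d) = a
  sub : ∀ U : Set S, ∀ w ∈ WP M U, p w ∈ WP M U

open Classical in
/-- The letter. -/
noncomputable def cc (M : CoxeterMatrix S) (D : Set S) (p : M.Group → M.Group) (w : M.Group)
    (s : S) : Option D :=
  if h : ∃ t : D, rho M.toCoxeterSystem ((p w)⁻¹ * w) (sr s) = sr t.1 then some h.choose else none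

variable {p : M.Group → M.Group}

lemma cc_some {w : M.Group} {s : S} {t : D} :
    cc M D p w s = some t ↔ rho M.toCoxeterSystem ((p w)⁻¹ * w) (sr s) = sr t.1 := by
  unfold cc
  constructor
  · intro h
    split_ifs at h with h1
    have h2 := h1.choose_spec
    rw [Option.some_inj] at h
    rw [h] at h2
    exact h2
  · intro h
    have h1 : ∃ t : D, rho M.toCoxeterSystem ((p w)⁻¹ * w) (sr s) = sr t.1 := ⟨t, h⟩
    rw [dif_pos h1]
    have h2 := h1.choose_spec
    rw [Option.some_inj]
    exact Subtype.ext (sr_inj (h.symm.trans h2)).symm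

lemma cc_none {w : M.Group} {s : S} :
    cc M D p w s = none ↔ ∀ t : D, rho M.toCoxeterSystem ((p w)⁻¹ * w) (sr s) ≠ sr t.1 := by
  unfold cc
  constructor
  · intro h
    split_ifs at h with h1
    push Not at h1
    exact h1
  · intro h
    have h1 : ¬ ∃ t : D, rho M.toCoxeterSystem ((p w)⁻¹ * w) (sr s) = sr t.1 := by
      rintro ⟨t, ht⟩; exact h t ht
    rw [dif_neg h1]

lemma cc_eq {w w' : M.Group} {s : S} (h : (p w)⁻¹ * w = (p w')⁻¹ * w') :
    cc M D p w s = cc M D p w' s := by
  unfold cc
  rw [h]

lemma Dec.some_step (hd : Dec M D p) {w : M.Group} {s : S} {t : D} (h : cc M D p w s = some t) :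
    p (w * M.simple s) = p w * M.simple t.1 ∧
      (p (w * M.simple s))⁻¹ * (w * M.simple s) = (p w)⁻¹ * w := by
  have h1 := cc_some.1 h
  have h2 : ((p w)⁻¹ * w) * M.simple s * ((p w)⁻¹ * w)⁻¹ = M.simple t.1 := by
    have a1 : RefOf M.toCoxeterSystem (((p w)⁻¹ * w) * M.simple s * ((p w)⁻¹ * w)⁻¹)
        (rho M.toCoxeterSystem ((p w)⁻¹ * w) (sr s)) := (refOf_simple s).conj _
    have a2 : RefOf M.toCoxeterSystem (M.simple t.1) (sr t.1) := refOf_simple t.1
    rw [h1] at a1
    exact a1.unique a2
  have h3 : w * M.simple s = (p w * M.simple t.1) * ((p w)⁻¹ * w) := by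
    rw [← h2]; group
  have h4 : p (w * M.simple s) = p w * M.simple t.1 := by
    rw [h3]
    refine hd.uniq _ (Subgroup.mul_mem _ (hd.mem w) ?_) _ (hd.min w)
    exact Subgroup.subset_closure ⟨t.1, t.2, rfl⟩
  refine ⟨h4, ?_⟩
  rw [h4, h3]
  group

lemma Dec.supp_iff (hd : Dec M D p) (hC : ChrStmt) {w : M.Group} {s : S} :
    SuppIn D (rho M.toCoxeterSystem ((p w)⁻¹ * w) (sr s)) ↔
      SuppIn D (rho M.toCoxeterSystem w (sr s)) := by
  rw [rho_mul]
  exact supp_rho_iff hC (Subgroup.inv_mem _ (hd.mem w))

lemma Dec.none_step (hd : Dec M D p) (hO : DeoStmt) (hC : ChrStmt) {w : M.Group} {s : S}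
    (h : cc M D p w s = none) : p (w * M.simple s) = p w ∧
      ¬ SuppIn D (rho M.toCoxeterSystem w (sr s)) := by
  have h1 := cc_none.1 h
  rcases hO M D ((p w)⁻¹ * w) s (hd.min w) with ⟨t, ht, h2, -⟩ | ⟨h2, h3⟩
  · exact absurd h2 (h1 ⟨t, ht⟩)
  · constructor
    · have h4 : w * M.simple s = p w * ((p w)⁻¹ * w * M.simple s) := by group
      conv_lhs => rw [h4]
      exact hd.uniq _ (hd.mem w) _ h3
    · rwa [hd.supp_iff hC] at h2

lemma Dec.none_iff (hd : Dec M D p) (hO : DeoStmt) (hC : ChrStmt) {w : M.Group} {s : S} :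
    cc M D p w s = none ↔ ¬ SuppIn D (rho M.toCoxeterSystem w (sr s)) := by
  constructor
  · intro h; exact (hd.none_step hO hC h).2
  · intro h
    rw [cc_none]
    intro t ht
    apply h
    rw [← hd.supp_iff hC, ht]
    exact supp_sr t.2

lemma Dec.const (hd : Dec M D p) (hO : DeoStmt) (hC : ChrStmt) {w : M.Group} {s t : S} {k : ℕ}
    (h : ∀ j, j < k → cc M D p (w * alt j (M.simple s) (M.simple t)) (if Even j then s else t) = none) :
    p (w * alt k (M.simple s) (M.simple t)) = p w := by
  induction k with
  | zero => rw [alt_zero, mul_one]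
  | succ k ih =>
    have h1 := (hd.none_step hO hC (h k (by omega))).1
    rw [alt_succ', ← mul_assoc]
    have e : (if Even k then M.simple s else M.simple t) = M.simple (if Even k then s else t) := by
      split_ifs <;> rfl
    rw [e, h1]
    exact ih (fun j hj => h j (by omega))

/-- The case of one wall, from one side. -/
lemma Dec.one_side (hd : Dec M D p) (hO : DeoStmt) (hC : ChrStmt) {w : M.Group} {s t : S} {k : ℕ}
    (hk : k < M.M s t)
    (h : ∀ j, j < M.M s t → j ≠ k →
      ¬ SuppIn D (rho M.toCoxeterSystem (w * alt j (M.simple s) (M.simple t))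
        (sr (if Even j then s else t)))) {t' : D}
    (ht' : rho M.toCoxeterSystem (p w)⁻¹ (rho M.toCoxeterSystem
      (w * alt k (M.simple s) (M.simple t)) (sr (if Even k then s else t))) = sr t'.1) :
    ((List.range (M.M s t)).map (fun k => (cc M D p (w * (alt k (M.simple s) (M.simple t)))
        (if Even k then s else t)).elim (1 : Gp (res M D)) (gen (res M D)))).prod =
      gen (res M D) t' := by
  have h1 : ∀ j, j < M.M s t → j ≠ k →
      cc M D p (w * alt j (M.simple s) (M.simple t)) (if Even j then s else t) = none :=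
    fun j hj hjk => (hd.none_iff hO hC).2 (h j hj hjk)
  have h2 : p (w * alt k (M.simple s) (M.simple t)) = p w :=
    hd.const hO hC (fun j hj => h1 j (by omega) (by omega))
  have h3 : cc M D p (w * alt k (M.simple s) (M.simple t)) (if Even k then s else t) = some t' := by
    rw [cc_some, h2, rho_mul]
    exact ht'
  rw [prod_single _ k _ hk]
  · simp only [h3, Option.elim]
  · intro j hj hjk
    simp only [h1 j hj hjk, Option.elim]

/-- The case of all walls, from one side. -/
lemma Dec.all_side (hd : Dec M D p) {w : M.Group} {s t : S} {t1 t2 : D}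
    (h1 : rho M.toCoxeterSystem ((p w)⁻¹ * w) (sr s) = sr t1.1)
    (h2 : rho M.toCoxeterSystem ((p w)⁻¹ * w) (sr t) = sr t2.1) (m : ℕ) :
    ((List.range m).map (fun k => (cc M D p (w * (alt k (M.simple s) (M.simple t)))
        (if Even k then s else t)).elim (1 : Gp (res M D)) (gen (res M D)))).prod =
      alt m (gen (res M D) t1) (gen (res M D) t2) := by
  have h3 : ∀ k, (p (w * alt k (M.simple s) (M.simple t)))⁻¹ *
      (w * alt k (M.simple s) (M.simple t)) = (p w)⁻¹ * w ∧
      cc M D p (w * alt k (M.simple s) (M.simple t)) (if Even k then s else t) =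
        some (if Even k then t1 else t2) := by
    intro k
    induction k with
    | zero =>
      rw [alt_zero, mul_one]
      refine ⟨rfl, ?_⟩
      rw [cc_some]
      simpa using h1
    | succ k ih =>
      have e : (if Even k then M.simple s else M.simple t) = M.simple (if Even k then s else t) := by
        split_ifs <;> rfl
      have h4 := (hd.some_step ih.2).2
      have h5 : w * alt (k + 1) (M.simple s) (M.simple t) =
          w * alt k (M.simple s) (M.simple t) * M.simple (if Even k then s else t) := by
        rw [alt_succ', ← mul_assoc, e]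
      have h6 : (p (w * alt (k + 1) (M.simple s) (M.simple t)))⁻¹ *
          (w * alt (k + 1) (M.simple s) (M.simple t)) = (p w)⁻¹ * w := by
        rw [h5, h4]; exact ih.1
      refine ⟨h6, ?_⟩
      rw [cc_some, h6]
      split_ifs
      · exact h1
      · exact h2
  show _ = ((List.range m).map fun k => if Even k then gen (res M D) t1 else gen (res M D) t2).prod
  congr 1
  apply List.map_congr_left
  intro k _
  rw [(h3 k).2]
  simp only [Option.elim]
  split_ifs <;> rfl

lemma label_eq {s t t1 t2 : S} (hst : s ≠ t) (hm : M.M s t ≠ 0)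
    (h : gram M t1 t2 = gram M s t) (h12 : t1 ≠ t2) : M.M t1 t2 = M.M s t := by
  have h1 : M.M s t ≠ 1 := M.off_diagonal s t hst
  have h2 : M.M t1 t2 ≠ 1 := M.off_diagonal t1 t2 h12
  have e1 : gram M t1 t2 = - Real.cos (Real.pi / M.M t1 t2) := rfl
  have e2 : gram M s t = - Real.cos (Real.pi / M.M s t) := rfl
  rw [e1, e2, neg_inj] at h
  have hpi := Real.pi_pos
  have hb : ∀ n : ℕ, n ≠ 1 → Real.pi / (n : ℝ) ∈ Set.Icc 0 Real.pi := by
    intro n hn
    constructor
    · positivity
    · rcases Nat.eq_zero_or_pos n with h0 | h0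
      · rw [h0]; simp [hpi.le]
      · have : (1 : ℝ) ≤ n := by exact_mod_cast h0
        exact div_le_self hpi.le this
  have h3 := Real.injOn_cos (hb _ h2) (hb _ h1) h
  have hpos : (0 : ℝ) < M.M s t := by
    have : 0 < M.M s t := Nat.pos_of_ne_zero hm
    exact_mod_cast this
  have h4 : (M.M t1 t2 : ℝ) ≠ 0 := by
    intro h0
    rw [h0, div_zero] at h3
    have : 0 < Real.pi / (M.M s t : ℝ) := by positivity
    linarith
  have h5 : (M.M t1 t2 : ℝ) = M.M s t := by
    rw [div_eq_div_iff h4 hpos.ne'] at h3
    exact (mul_left_cancel₀ hpi.ne' h3).symm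
  exact_mod_cast h5

/-- Module PRJ. -/
theorem prj (hDec : DecStmt) (hO : DeoStmt) (hC : ChrStmt) : PrjStmt := by
  intro S _ M D
  obtain ⟨p, q1, q2, q3, q4⟩ := hDec M D
  have hd : Dec M D p := ⟨q1, q2, q3, q4⟩
  have min1 : Min M D 1 := by
    intro t _
    rw [inv_one, rho_one]
    exact NN_sr t
  have pin : ∀ w ∈ WP M D, p w = w := by
    intro w hw
    have := hd.uniq w hw 1 min1
    rwa [mul_one] at this
  refine ⟨⟨p, cc M D p, hd.mem, pin, pin 1 (Subgroup.one_mem _), ?_, ?_, ?_, ?_, ?_, ?_⟩⟩
  · intro w s h
    exact (hd.none_step hO hC h).1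
  · intro w s t h
    exact (hd.some_step h).1
  · intro w s
    rcases hc : cc M D p w s with _ | t
    · rw [hd.none_iff hO hC]
      have h1 := (hd.none_iff hO hC).1 hc
      intro h2
      apply h1
      rw [rho_mul, rho_s, sig_self, map_neg] at h2
      intro i hi
      have := h2 i hi
      rwa [Finsupp.neg_apply, neg_eq_zero] at this
    · rw [cc_some, (hd.some_step hc).2]
      exact cc_some.1 hc
  · intro U w s t hw hs h
    have h1 := cc_some.1 h
    have h2 : (p w)⁻¹ * w ∈ WP M U := Subgroup.mul_mem _ (Subgroup.inv_mem _ (hd.sub U w hw)) hw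
    by_contra ht
    have h3 := (hC M U _).1 h2 (sr s) t.1 ht
    rw [h1, Finsupp.sub_apply, supp_sr hs t.1 ht, sub_zero] at h3
    simp [sr] at h3
  · intro w s hw
    rw [cc_some, pin w hw, inv_mul_cancel, rho_one]
  · intro w s t hst hm
    have hm' : M.M t s = M.M s t := M.symmetric t s
    by_cases hall : SuppIn D (rho M.toCoxeterSystem w (sr s)) ∧
        SuppIn D (rho M.toCoxeterSystem w (sr t))
    · obtain ⟨hs, ht⟩ := hall
      have g1 : ∃ t1 : D, cc M D p w s = some t1 := by
        rcases hc : cc M D p w s with _ | t1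
        · exact absurd hs ((hd.none_iff hO hC).1 hc)
        · exact ⟨t1, rfl⟩
      have g2 : ∃ t2 : D, cc M D p w t = some t2 := by
        rcases hc : cc M D p w t with _ | t2
        · exact absurd ht ((hd.none_iff hO hC).1 hc)
        · exact ⟨t2, rfl⟩
      obtain ⟨t1, g1⟩ := g1
      obtain ⟨t2, g2⟩ := g2
      rw [cc_some] at g1 g2
      rw [hd.all_side g1 g2, hd.all_side g2 g1]
      have hne : t1.1 ≠ t2.1 := by
        intro e
        rw [e, ← g2] at g1
        exact hst (sr_inj ((rho M.toCoxeterSystem ((p w)⁻¹ * w)).injective g1))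
      have hg : gram M t1.1 t2.1 = gram M s t := by
        rw [← bil_sr_sr, ← bil_sr_sr, ← g1, ← g2, bil_rho]
      have hl := label_eq hst hm hg hne
      have := relHolds (res M D) t1 t2 (by rw [res_apply, hl]; exact hm)
      rw [res_apply, hl] at this
      exact this
    · -- at most one wall
      have hP : ∀ k l, k < M.M s t → l < M.M s t →
          SuppIn D (rho M.toCoxeterSystem (w * alt k (M.simple s) (M.simple t))
            (sr (if Even k then s else t))) →
          SuppIn D (rho M.toCoxeterSystem (w * alt l (M.simple s) (M.simple t))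
            (sr (if Even l then s else t))) → k = l := by
        intro k l hk hl h1 h2
        by_contra hne
        rcases Nat.lt_or_gt_of_ne hne with hlt | hlt
        · exact hall (two_aux hst hm hlt hl w h1 h2)
        · exact hall (two_aux hst hm hlt hk w h2 h1)
      have hsw : ∀ k j, k + j + 1 = M.M s t →
          rho M.toCoxeterSystem (w * alt k (M.simple s) (M.simple t))
            (sr (if Even k then s else t)) =
          rho M.toCoxeterSystem (w * alt j (M.simple t) (M.simple s))
            (sr (if Even j then t else s)) := by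
        intro k j hkj
        rw [rho_mul, rho_mul, root_swap hst hm hkj]
      by_cases hex : ∃ k, k < M.M s t ∧
          SuppIn D (rho M.toCoxeterSystem (w * alt k (M.simple s) (M.simple t))
            (sr (if Even k then s else t)))
      · obtain ⟨k, hk, hkD⟩ := hex
        obtain ⟨j, hj⟩ : ∃ j, k + j + 1 = M.M s t := ⟨M.M s t - 1 - k, by omega⟩
        have L1 : ∀ i, i < M.M s t → i ≠ k →
            ¬ SuppIn D (rho M.toCoxeterSystem (w * alt i (M.simple s) (M.simple t))
              (sr (if Even i then s else t))) := fun i hi hik h => hik (hP i k hi hk h hkD)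
        have L2 : ∀ i, i < M.M t s → i ≠ j →
            ¬ SuppIn D (rho M.toCoxeterSystem (w * alt i (M.simple t) (M.simple s))
              (sr (if Even i then t else s))) := by
          intro i hi hij h
          rw [← hsw (M.M s t - 1 - i) i (by omega)] at h
          have := hP _ k (by omega) hk h hkD
          omega
        -- the letter
        have hc : ∃ t' : D, rho M.toCoxeterSystem (p w)⁻¹ (rho M.toCoxeterSystem
            (w * alt k (M.simple s) (M.simple t)) (sr (if Even k then s else t))) = sr t'.1 := by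
          have h2 : p (w * alt k (M.simple s) (M.simple t)) = p w :=
            hd.const hO hC (fun i hi => (hd.none_iff hO hC).2 (L1 i (by omega) (by omega)))
          rcases hc : cc M D p (w * alt k (M.simple s) (M.simple t)) (if Even k then s else t) with
            _ | t'
          · exact absurd hkD ((hd.none_iff hO hC).1 hc)
          · refine ⟨t', ?_⟩
            have := cc_some.1 hc
            rw [h2, rho_mul] at this
            exact this
        obtain ⟨t', ht'⟩ := hc
        rw [hd.one_side hO hC hk L1 ht']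
        rw [hsw k j hj] at ht'
        have := hd.one_side hO hC (s := t) (t := s) (k := j) (by omega) L2 ht'
        rw [hm'] at this
        exact this.symm
      · push Not at hex
        rw [prod_one, prod_one]
        · intro k hk
          have h1 : cc M D p (w * alt k (M.simple t) (M.simple s)) (if Even k then t else s) =
              none := by
            rw [hd.none_iff hO hC, ← hsw (M.M s t - 1 - k) k (by omega)]
            exact hex _ (by omega)
          simp only [h1, Option.elim]
        · intro k hk
          have h1 : cc M D p (w * alt k (M.simple s) (M.simple t)) (if Even k then s else t) =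
              none := by
            rw [hd.none_iff hO hC]
            exact hex _ hk
          simp only [h1, Option.elim]

end proj

end Unf.H7
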